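import Pool.Agent.H586.AF.C

/-!
# Task AF-P23 (helper308, for the project AF of helper586)

One plaquette of the plane 23.
-/

set_option autoImplicit false

open MeasureTheory Matrix Finset Filter Topology
open scoped Quaternion ComplexConjugate

namespace Pool.Agent.H308.AF

open Pool.Agent.H586.AF

noncomputable section

/-- the part `re + imK k` -/
def al (q : ℍ[ℝ]) : ℂ := ⟨q.re, q.imK⟩

/-- the part `imI + imJ k` -/
def be (q : ℍ[ℝ]) : ℂ := ⟨q.imI, q.imJ⟩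

theorem norm_sq_eq (q : ℍ[ℝ]) : ‖al q‖ ^ 2 + ‖be q‖ ^ 2 = ‖q‖ ^ 2 := by
  have h1 : ‖q‖ ^ 2 = q.re ^ 2 + q.imI ^ 2 + q.imJ ^ 2 + q.imK ^ 2 := by
    rw [sq, ← Quaternion.normSq_eq_norm_mul_self, Quaternion.normSq_def']
  rw [h1, ← Complex.normSq_eq_norm_sq, ← Complex.normSq_eq_norm_sq, Complex.normSq_apply,
    Complex.normSq_apply]
  simp only [al, be]
  ring

theorem norm_al_le (q : ℍ[ℝ]) : ‖al q‖ ≤ ‖q‖ := by
  have h := norm_sq_eq q
  refine (sq_le_sq₀ (norm_nonneg _) (norm_nonneg _)).mp ?_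
  nlinarith [sq_nonneg ‖be q‖]

theorem norm_be_le (q : ℍ[ℝ]) : ‖be q‖ ≤ ‖q‖ := by
  have h := norm_sq_eq q
  refine (sq_le_sq₀ (norm_nonneg _) (norm_nonneg _)).mp ?_
  nlinarith [sq_nonneg ‖al q‖]

/-- trigonometric polynomials of degree two -/
def gt (w k0 k1 k2 k3 k4 θ : ℝ) : ℝ :=
  k0 + k1 * Real.cos (w * θ) + k2 * Real.sin (w * θ) + k3 * Real.cos (2 * w * θ) +
    k4 * Real.sin (2 * w * θ)

theorem gt_deriv (w k0 k1 k2 k3 k4 θ : ℝ) : HasDerivAt (gt w k0 k1 k2 k3 k4)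
    (gt w 0 (w * k2) (-(w * k1)) (2 * w * k4) (-(2 * w * k3)) θ) θ := by
  have h1 : HasDerivAt (fun θ : ℝ => w * θ) w θ := by
    simpa using (hasDerivAt_id θ).const_mul w
  have h2 : HasDerivAt (fun θ : ℝ => 2 * w * θ) (2 * w) θ := by
    simpa using (hasDerivAt_id θ).const_mul (2 * w)
  have h3 := ((((h1.cos.const_mul k1).const_add k0).add (h1.sin.const_mul k2)).add
    (h2.cos.const_mul k3)).add (h2.sin.const_mul k4)
  refine h3.congr_deriv ?_
  simp only [gt]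
  ring

theorem gt_cont (w k0 k1 k2 k3 k4 : ℝ) : Continuous (gt w k0 k1 k2 k3 k4) := by
  unfold gt
  fun_prop

theorem gt_zero (w k0 k1 k2 k3 k4 : ℝ) : gt w k0 k1 k2 k3 k4 0 = k0 + k1 + k3 := by
  simp [gt]

theorem gt_bound (w k0 k1 k2 k3 k4 θ : ℝ) : |gt w k0 k1 k2 k3 k4 θ| ≤
    |k0| + |k1| + |k2| + |k3| + |k4| := by
  have hh : ∀ k x : ℝ, |x| ≤ 1 → |k * x| ≤ |k| := by
    intro k x hx
    rw [abs_mul]
    exact mul_le_of_le_one_right (abs_nonneg _) hx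
  have h1 := hh k1 _ (Real.abs_cos_le_one (w * θ))
  have h2 := hh k2 _ (Real.abs_sin_le_one (w * θ))
  have h3 := hh k3 _ (Real.abs_cos_le_one (2 * w * θ))
  have h4 := hh k4 _ (Real.abs_sin_le_one (2 * w * θ))
  unfold gt
  calc _ ≤ |k0| + |k1 * Real.cos (w * θ)| + |k2 * Real.sin (w * θ)| +
        |k3 * Real.cos (2 * w * θ)| + |k4 * Real.sin (2 * w * θ)| := by
        refine (abs_add_le _ _).trans ?_
        gcongr
        refine (abs_add_le _ _).trans ?_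
        gcongr
        refine (abs_add_le _ _).trans ?_
        gcongr
        exact abs_add_le _ _
    _ ≤ _ := by linarith

/-- the coefficient of `u` in the energy -/
def m1 (a b c d : ℍ[ℝ]) : ℂ :=
  -(al a * al b * be c * conj (be d)) - conj (be a) * be b * al c * al d +
    al a * be b * conj (be c) * conj (al d) + be a * conj (al b) * al c * conj (be d)

/-- the coefficient of `u ^ 2` in the energy -/
def m2 (a b c d : ℍ[ℝ]) : ℂ := al a * be b * al c * conj (be d)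

/-- the constant coefficient -/
def m0 (a b c d : ℍ[ℝ]) : ℂ :=
  al a * al b * conj (al c) * conj (al d) + be a * conj (be b) * be c * conj (be d) +
    be a * conj (al b) * conj (be c) * conj (al d)

theorem bg_conj (θ y : ℝ) (a : ℍ[ℝ]) : bg θ y * a * bg θ y =
    ⟨Real.cos (θ * y) * a.re - Real.sin (θ * y) * a.imK, a.imI, a.imJ,
      Real.sin (θ * y) * a.re + Real.cos (θ * y) * a.imK⟩ := by
  have hc : Real.cos (θ * y) = Real.cos (θ * y / 2) ^ 2 - Real.sin (θ * y / 2) ^ 2 := by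
    have h1 : θ * y = 2 * (θ * y / 2) := by ring
    rw [h1, Real.cos_two_mul', ← h1]
  have hs : Real.sin (θ * y) = 2 * Real.sin (θ * y / 2) * Real.cos (θ * y / 2) := by
    have h1 : θ * y = 2 * (θ * y / 2) := by ring
    rw [h1, Real.sin_two_mul, ← h1]
  have h2 := Real.sin_sq_add_cos_sq (θ * y / 2)
  rw [hc, hs]
  ext
  · simp only [bg, Quaternion.re_mul, Quaternion.imI_mul, Quaternion.imJ_mul, Quaternion.imK_mul]
    ring
  · simp only [bg, Quaternion.re_mul, Quaternion.imI_mul, Quaternion.imJ_mul, Quaternion.imK_mul]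
    linear_combination a.imI * h2
  · simp only [bg, Quaternion.re_mul, Quaternion.imI_mul, Quaternion.imJ_mul, Quaternion.imK_mul]
    linear_combination a.imJ * h2
  · simp only [bg, Quaternion.re_mul, Quaternion.imI_mul, Quaternion.imJ_mul, Quaternion.imK_mul]
    ring

theorem pe_eq (a b c d : ℍ[ℝ]) (x θ : ℝ) :
    pe (bg θ (x / 2) * a * bg θ (x / 2)) b (bg θ (x / 2) * c * bg θ (x / 2)) d =
      gt (x / 2) (2 - 2 * (m0 a b c d).re) (-(2 * (m1 a b c d).re)) (2 * (m1 a b c d).im)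
        (-(2 * (m2 a b c d).re)) (2 * (m2 a b c d).im) θ := by
  have h1 : x / 2 * θ = θ * (x / 2) := by ring
  have h2 : 2 * (x / 2) * θ = 2 * (θ * (x / 2)) := by ring
  rw [bg_conj, bg_conj, gt, h1, h2, Real.cos_two_mul', Real.sin_two_mul]
  have h3 := Real.sin_sq_add_cos_sq (θ * (x / 2))
  obtain ⟨C, hC⟩ : ∃ C, C = Real.cos (θ * (x / 2)) := ⟨_, rfl⟩
  obtain ⟨S, hS⟩ : ∃ S, S = Real.sin (θ * (x / 2)) := ⟨_, rfl⟩
  rw [← hC, ← hS] at h3 ⊢
  obtain ⟨a0, a1, a2, a3⟩ := a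
  obtain ⟨b0, b1, b2, b3⟩ := b
  obtain ⟨c0, c1, c2, c3⟩ := c
  obtain ⟨d0, d1, d2, d3⟩ := d
  simp only [pe, m0, m1, m2, al, be, Quaternion.re_mul, Quaternion.imI_mul, Quaternion.imJ_mul,
    Quaternion.imK_mul, Quaternion.re_star, Quaternion.imI_star, Quaternion.imJ_star,
    Quaternion.imK_star, Complex.mul_re, Complex.mul_im, Complex.add_re, Complex.add_im,
    Complex.sub_re, Complex.sub_im, Complex.neg_re, Complex.neg_im, Complex.conj_re,
    Complex.conj_im]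
  linear_combination (-2 * ((a0 * b0 - a3 * b3) * (c0 * d0 - c3 * d3) +
    (a0 * b3 + a3 * b0) * (c0 * d3 + c3 * d0))) * h3

/-- the coefficient of `u` in the quadratic form -/
def n1 (a b c d : ℍ[ℝ]) : ℂ :=
  -(be c * conj (be d)) - conj (be a) * be b + be b * conj (be c) + be a * conj (be d)

/-- the coefficient of `u ^ 2` in the quadratic form -/
def n2 (_a b _c d : ℍ[ℝ]) : ℂ := be b * conj (be d)

/-- the constant coefficient -/
def n0 (a b c d : ℍ[ℝ]) : ℝ :=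
  Complex.normSq (be a) + Complex.normSq (be b) + Complex.normSq (be c) + Complex.normSq (be d) -
    2 * (be a * conj (be c)).re

theorem ch_eq (q : ℍ[ℝ]) : ch q = ((Real.sqrt 2 : ℝ) : ℂ) * be q := by
  unfold ch be
  congr 1
  apply Complex.ext
  · simp
  · simp

theorem ee_eq (θ y : ℝ) : ee θ y = ⟨Real.cos (θ * y), Real.sin (θ * y)⟩ := by
  unfold ee
  rw [mul_comm]
  apply Complex.ext
  · rw [Complex.exp_ofReal_mul_I_re]
  · rw [Complex.exp_ofReal_mul_I_im]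

theorem q23_eq (a b c d : ℍ[ℝ]) (x θ : ℝ) :
    q23 θ x (ch a) (ch b) (ch c) (ch d) =
      gt (x / 2) (n0 a b c d) (-(2 * (n1 a b c d).re)) (2 * (n1 a b c d).im)
        (-(2 * (n2 a b c d).re)) (2 * (n2 a b c d).im) θ := by
  have h1 : x / 2 * θ = θ * (x / 2) := by ring
  have h2 : 2 * (x / 2) * θ = 2 * (θ * (x / 2)) := by ring
  have h3 := Real.sin_sq_add_cos_sq (θ * (x / 2))
  have h4 : θ * -(x / 2) = -(θ * (x / 2)) := by ring
  have h5 : ch a - ch c + ee θ (x / 2) * ch b - ee θ (-(x / 2)) * ch d =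
      ((Real.sqrt 2 : ℝ) : ℂ) * (be a - be c + ee θ (x / 2) * be b - ee θ (-(x / 2)) * be d) := by
    rw [ch_eq, ch_eq, ch_eq, ch_eq]
    ring
  have h6 : ‖((Real.sqrt 2 : ℝ) : ℂ)‖ ^ 2 = 2 := by
    rw [Complex.norm_real, Real.norm_eq_abs, sq_abs, Real.sq_sqrt (by norm_num)]
  rw [q23, h5, norm_mul, mul_pow, h6, ee_eq, ee_eq, h4, Real.cos_neg, Real.sin_neg,
    ← Complex.normSq_eq_norm_sq, Complex.normSq_apply]
  rw [gt, h1, h2, Real.cos_two_mul', Real.sin_two_mul]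
  obtain ⟨C, hC⟩ : ∃ C, C = Real.cos (θ * (x / 2)) := ⟨_, rfl⟩
  obtain ⟨S, hS⟩ : ∃ S, S = Real.sin (θ * (x / 2)) := ⟨_, rfl⟩
  rw [← hC, ← hS] at h3 ⊢
  obtain ⟨a0, a1, a2, a3⟩ := a
  obtain ⟨b0, b1, b2, b3⟩ := b
  obtain ⟨c0, c1, c2, c3⟩ := c
  obtain ⟨d0, d1, d2, d3⟩ := d
  simp only [n0, n1, n2, be, Complex.normSq_apply,
    Complex.mul_re, Complex.mul_im, Complex.add_re, Complex.add_im,
    Complex.sub_re, Complex.sub_im, Complex.neg_re, Complex.neg_im, Complex.conj_re,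
    Complex.conj_im]
  linear_combination (b1 ^ 2 + b2 ^ 2 + d1 ^ 2 + d2 ^ 2) * h3

/-! ### Bounds -/

theorem al_sub_one (q : ℍ[ℝ]) : al q - 1 = al (q - 1) := by
  apply Complex.ext
  · simp [al]
  · simp [al]

theorem be_sub_one (q : ℍ[ℝ]) : be (q - 1) = be q := by
  apply Complex.ext
  · simp [be]
  · simp [be]

theorem norm_al_sub_one_le (q : ℍ[ℝ]) : ‖al q - 1‖ ≤ ‖q - 1‖ := by
  rw [al_sub_one]
  exact norm_al_le _

theorem norm_be_le' (q : ℍ[ℝ]) : ‖be q‖ ≤ ‖q - 1‖ := by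
  rw [← be_sub_one]
  exact norm_be_le _

theorem mul4_le {a b c d A B C D : ℝ} (ha : 0 ≤ a) (hb : 0 ≤ b) (hc : 0 ≤ c) (hd : 0 ≤ d)
    (hA : a ≤ A) (hB : b ≤ B) (hC : c ≤ C) (hD : d ≤ D) : a * b * c * d ≤ A * B * C * D := by
  have h1 : 0 ≤ A := ha.trans hA
  have h2 : 0 ≤ B := hb.trans hB
  have h3 : 0 ≤ C := hc.trans hC
  gcongr

theorem m1_le (a b c d : ℍ[ℝ]) (ha : ‖a‖ = 1) (hb : ‖b‖ = 1) (hc : ‖c‖ = 1) (hd : ‖d‖ = 1) :
    ‖m1 a b c d‖ ≤ 4 := by
  have hA := norm_al_le a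
  have hB := norm_al_le b
  have hC := norm_al_le c
  have hD := norm_al_le d
  have hA' := norm_be_le a
  have hB' := norm_be_le b
  have hC' := norm_be_le c
  have hD' := norm_be_le d
  rw [ha] at hA hA'
  rw [hb] at hB hB'
  rw [hc] at hC hC'
  rw [hd] at hD hD'
  have e1 : ‖al a * al b * be c * conj (be d)‖ ≤ 1 := by
    rw [norm_mul, norm_mul, norm_mul, Complex.norm_conj]
    simpa using mul4_le (norm_nonneg _) (norm_nonneg _) (norm_nonneg _) (norm_nonneg _) hA hB hC' hD'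
  have e2 : ‖conj (be a) * be b * al c * al d‖ ≤ 1 := by
    rw [norm_mul, norm_mul, norm_mul, Complex.norm_conj]
    simpa using mul4_le (norm_nonneg _) (norm_nonneg _) (norm_nonneg _) (norm_nonneg _) hA' hB' hC hD
  have e3 : ‖al a * be b * conj (be c) * conj (al d)‖ ≤ 1 := by
    rw [norm_mul, norm_mul, norm_mul, Complex.norm_conj, Complex.norm_conj]
    simpa using mul4_le (norm_nonneg _) (norm_nonneg _) (norm_nonneg _) (norm_nonneg _) hA hB' hC' hD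
  have e4 : ‖be a * conj (al b) * al c * conj (be d)‖ ≤ 1 := by
    rw [norm_mul, norm_mul, norm_mul, Complex.norm_conj, Complex.norm_conj]
    simpa using mul4_le (norm_nonneg _) (norm_nonneg _) (norm_nonneg _) (norm_nonneg _) hA' hB hC hD'
  unfold m1
  calc _ ≤ ‖-(al a * al b * be c * conj (be d)) - conj (be a) * be b * al c * al d +
        al a * be b * conj (be c) * conj (al d)‖ + ‖be a * conj (al b) * al c * conj (be d)‖ :=
        norm_add_le _ _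
    _ ≤ ‖-(al a * al b * be c * conj (be d)) - conj (be a) * be b * al c * al d‖ +
        ‖al a * be b * conj (be c) * conj (al d)‖ + ‖be a * conj (al b) * al c * conj (be d)‖ := by
        gcongr
        exact norm_add_le _ _
    _ ≤ ‖-(al a * al b * be c * conj (be d))‖ + ‖conj (be a) * be b * al c * al d‖ +
        ‖al a * be b * conj (be c) * conj (al d)‖ + ‖be a * conj (al b) * al c * conj (be d)‖ := by
        gcongr
        exact norm_sub_le _ _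
    _ ≤ 4 := by
        rw [norm_neg]
        linarith

theorem m2_le (a b c d : ℍ[ℝ]) (ha : ‖a‖ = 1) (hb : ‖b‖ = 1) (hc : ‖c‖ = 1) (hd : ‖d‖ = 1) :
    ‖m2 a b c d‖ ≤ 1 := by
  have hA := norm_al_le a
  have hC := norm_al_le c
  have hB' := norm_be_le b
  have hD' := norm_be_le d
  rw [ha] at hA
  rw [hb] at hB'
  rw [hc] at hC
  rw [hd] at hD'
  unfold m2
  rw [norm_mul, norm_mul, norm_mul, Complex.norm_conj]
  simpa using mul4_le (norm_nonneg _) (norm_nonneg _) (norm_nonneg _) (norm_nonneg _) hA hB' hC hD'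

/-- `‖α γ - 1‖ ≤ ‖α - 1‖ + ‖γ - 1‖` for `‖α‖ ≤ 1` -/
theorem mul_sub_one_le (α γ : ℂ) (h : ‖α‖ ≤ 1) : ‖α * γ - 1‖ ≤ ‖α - 1‖ + ‖γ - 1‖ := by
  have h1 : α * γ - 1 = α * (γ - 1) + (α - 1) := by ring
  rw [h1]
  calc _ ≤ ‖α * (γ - 1)‖ + ‖α - 1‖ := norm_add_le _ _
    _ = ‖α‖ * ‖γ - 1‖ + ‖α - 1‖ := by rw [norm_mul]
    _ ≤ 1 * ‖γ - 1‖ + ‖α - 1‖ := by gcongr
    _ = _ := by ring

theorem norm_conj_sub_one (α : ℂ) : ‖conj α - 1‖ = ‖α - 1‖ := by
  have h : conj α - 1 = conj (α - 1) := by simp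
  rw [h, Complex.norm_conj]

theorem diff1 (a b c d : ℍ[ℝ]) (ha : ‖a‖ = 1) (_hb : ‖b‖ = 1) (hc : ‖c‖ = 1) (_hd : ‖d‖ = 1)
    (f : ℝ) (hf : f = ‖a - 1‖ + ‖b - 1‖ + ‖c - 1‖ + ‖d - 1‖) :
    ‖m1 a b c d - n1 a b c d‖ ≤ 4 * f ^ 3 := by
  have ka := norm_nonneg (a - 1)
  have kb := norm_nonneg (b - 1)
  have kc := norm_nonneg (c - 1)
  have kd := norm_nonneg (d - 1)
  have f0 : 0 ≤ f := by rw [hf]; positivity
  have hA := norm_al_le a
  have hC := norm_al_le c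
  rw [ha] at hA
  rw [hc] at hC
  have sa := norm_al_sub_one_le a
  have sb := norm_al_sub_one_le b
  have sc := norm_al_sub_one_le c
  have sd := norm_al_sub_one_le d
  have ba : ‖be a‖ ≤ f := (norm_be_le' a).trans (by rw [hf]; linarith)
  have bb : ‖be b‖ ≤ f := (norm_be_le' b).trans (by rw [hf]; linarith)
  have bc : ‖be c‖ ≤ f := (norm_be_le' c).trans (by rw [hf]; linarith)
  have bd : ‖be d‖ ≤ f := (norm_be_le' d).trans (by rw [hf]; linarith)
  have key : ∀ X Y Z : ℂ, ‖X‖ ≤ f → ‖Y‖ ≤ f → ‖Z‖ ≤ f → ‖X * Y * Z‖ ≤ f ^ 3 := by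
    intro X Y Z hX hY hZ
    rw [norm_mul, norm_mul]
    calc ‖X‖ * ‖Y‖ * ‖Z‖ ≤ f * f * f := by gcongr
      _ = f ^ 3 := by ring
  have e1 : ‖(al a * al b - 1) * be c * conj (be d)‖ ≤ f ^ 3 := by
    refine key _ _ _ ((mul_sub_one_le _ _ hA).trans (by rw [hf]; linarith)) bc ?_
    rw [Complex.norm_conj]; exact bd
  have e2 : ‖(al c * al d - 1) * conj (be a) * be b‖ ≤ f ^ 3 := by
    refine key _ _ _ ((mul_sub_one_le _ _ hC).trans (by rw [hf]; linarith)) ?_ bb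
    rw [Complex.norm_conj]; exact ba
  have e3 : ‖(al a * conj (al d) - 1) * be b * conj (be c)‖ ≤ f ^ 3 := by
    refine key _ _ _ ((mul_sub_one_le _ _ hA).trans ?_) bb ?_
    · rw [norm_conj_sub_one, hf]; linarith
    · rw [Complex.norm_conj]; exact bc
  have e4 : ‖(al c * conj (al b) - 1) * be a * conj (be d)‖ ≤ f ^ 3 := by
    refine key _ _ _ ((mul_sub_one_le _ _ hC).trans ?_) ba ?_
    · rw [norm_conj_sub_one, hf]; linarith
    · rw [Complex.norm_conj]; exact bd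
  have h1 : m1 a b c d - n1 a b c d = -((al a * al b - 1) * be c * conj (be d)) -
      (al c * al d - 1) * conj (be a) * be b + (al a * conj (al d) - 1) * be b * conj (be c) +
      (al c * conj (al b) - 1) * be a * conj (be d) := by
    unfold m1 n1
    ring
  rw [h1]
  calc _ ≤ ‖-((al a * al b - 1) * be c * conj (be d)) -
      (al c * al d - 1) * conj (be a) * be b + (al a * conj (al d) - 1) * be b * conj (be c)‖ +
      ‖(al c * conj (al b) - 1) * be a * conj (be d)‖ := norm_add_le _ _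
    _ ≤ ‖-((al a * al b - 1) * be c * conj (be d)) -
      (al c * al d - 1) * conj (be a) * be b‖ + ‖(al a * conj (al d) - 1) * be b * conj (be c)‖ +
      ‖(al c * conj (al b) - 1) * be a * conj (be d)‖ := by
        gcongr
        exact norm_add_le _ _
    _ ≤ ‖-((al a * al b - 1) * be c * conj (be d))‖ +
      ‖(al c * al d - 1) * conj (be a) * be b‖ + ‖(al a * conj (al d) - 1) * be b * conj (be c)‖ +
      ‖(al c * conj (al b) - 1) * be a * conj (be d)‖ := by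
        gcongr
        exact norm_sub_le _ _
    _ ≤ 4 * f ^ 3 := by
        rw [norm_neg]
        linarith

theorem diff2 (a b c d : ℍ[ℝ]) (ha : ‖a‖ = 1)
    (f : ℝ) (hf : f = ‖a - 1‖ + ‖b - 1‖ + ‖c - 1‖ + ‖d - 1‖) :
    ‖m2 a b c d - n2 a b c d‖ ≤ f ^ 3 := by
  have ka := norm_nonneg (a - 1)
  have kb := norm_nonneg (b - 1)
  have kc := norm_nonneg (c - 1)
  have kd := norm_nonneg (d - 1)
  have f0 : 0 ≤ f := by rw [hf]; positivity
  have hA := norm_al_le a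
  rw [ha] at hA
  have sa := norm_al_sub_one_le a
  have sc := norm_al_sub_one_le c
  have bb : ‖be b‖ ≤ f := (norm_be_le' b).trans (by rw [hf]; linarith)
  have bd : ‖be d‖ ≤ f := (norm_be_le' d).trans (by rw [hf]; linarith)
  have h1 : m2 a b c d - n2 a b c d = (al a * al c - 1) * be b * conj (be d) := by
    unfold m2 n2
    ring
  have h2 : ‖al a * al c - 1‖ ≤ f := (mul_sub_one_le _ _ hA).trans (by rw [hf]; linarith)
  rw [h1, norm_mul, norm_mul, Complex.norm_conj]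
  calc _ ≤ f * f * f := by gcongr
    _ = f ^ 3 := by ring

theorem tp23 : S_P23 := by
  refine ⟨100, fun a b c d x hx => ?_⟩
  obtain ⟨a, ha⟩ := a
  obtain ⟨b, hb⟩ := b
  obtain ⟨c, hc⟩ := c
  obtain ⟨d, hd⟩ := d
  have ha : ‖a‖ = 1 := by simpa using ha
  have hb : ‖b‖ = 1 := by simpa using hb
  have hc : ‖c‖ = 1 := by simpa using hc
  have hd : ‖d‖ = 1 := by simpa using hd
  have hM1 := m1_le a b c d ha hb hc hd
  have hM2 := m2_le a b c d ha hb hc hd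
  obtain ⟨f, hf⟩ : ∃ f, f = ‖a - 1‖ + ‖b - 1‖ + ‖c - 1‖ + ‖d - 1‖ := ⟨_, rfl⟩
  have hD1 := diff1 a b c d ha hb hc hd f hf
  have hD2 := diff2 a b c d ha f hf
  have f0 : 0 ≤ f := by rw [hf]; positivity
  have f3 : 0 ≤ f ^ 3 := by positivity
  obtain ⟨w, hw⟩ : ∃ w, w = x / 2 := ⟨_, rfl⟩
  have hw0 : 0 ≤ w := by rw [hw]; linarith
  have hwx : w ≤ (1 + x) ^ 2 := by rw [hw]; nlinarith
  have hwx2 : w ^ 2 ≤ (1 + x) ^ 2 := by rw [hw]; nlinarith
  obtain ⟨k1, hk1⟩ : ∃ k, k = -(2 * (m1 a b c d).re) := ⟨_, rfl⟩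
  obtain ⟨k2, hk2⟩ : ∃ k, k = 2 * (m1 a b c d).im := ⟨_, rfl⟩
  obtain ⟨k3, hk3⟩ : ∃ k, k = -(2 * (m2 a b c d).re) := ⟨_, rfl⟩
  obtain ⟨k4, hk4⟩ : ∃ k, k = 2 * (m2 a b c d).im := ⟨_, rfl⟩
  obtain ⟨l1, hl1⟩ : ∃ k, k = -(2 * (n1 a b c d).re) := ⟨_, rfl⟩
  obtain ⟨l2, hl2⟩ : ∃ k, k = 2 * (n1 a b c d).im := ⟨_, rfl⟩
  obtain ⟨l3, hl3⟩ : ∃ k, k = -(2 * (n2 a b c d).re) := ⟨_, rfl⟩
  obtain ⟨l4, hl4⟩ : ∃ k, k = 2 * (n2 a b c d).im := ⟨_, rfl⟩
  have b1 : |k1| ≤ 8 := by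
    rw [hk1, abs_neg, abs_mul, abs_two]
    linarith [(Complex.abs_re_le_norm (m1 a b c d)).trans hM1]
  have b2 : |k2| ≤ 8 := by
    rw [hk2, abs_mul, abs_two]
    linarith [(Complex.abs_im_le_norm (m1 a b c d)).trans hM1]
  have b3 : |k3| ≤ 2 := by
    rw [hk3, abs_neg, abs_mul, abs_two]
    linarith [(Complex.abs_re_le_norm (m2 a b c d)).trans hM2]
  have b4 : |k4| ≤ 2 := by
    rw [hk4, abs_mul, abs_two]
    linarith [(Complex.abs_im_le_norm (m2 a b c d)).trans hM2]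
  have c1 : |k1 - l1| ≤ 8 * f ^ 3 := by
    have h1 : k1 - l1 = -(2 * (m1 a b c d - n1 a b c d).re) := by
      rw [hk1, hl1, Complex.sub_re]; ring
    rw [h1, abs_neg, abs_mul, abs_two]
    linarith [(Complex.abs_re_le_norm (m1 a b c d - n1 a b c d)).trans hD1]
  have c2 : |k2 - l2| ≤ 8 * f ^ 3 := by
    have h1 : k2 - l2 = 2 * (m1 a b c d - n1 a b c d).im := by
      rw [hk2, hl2, Complex.sub_im]; ring
    rw [h1, abs_mul, abs_two]
    linarith [(Complex.abs_im_le_norm (m1 a b c d - n1 a b c d)).trans hD1]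
  have c3 : |k3 - l3| ≤ 2 * f ^ 3 := by
    have h1 : k3 - l3 = -(2 * (m2 a b c d - n2 a b c d).re) := by
      rw [hk3, hl3, Complex.sub_re]; ring
    rw [h1, abs_neg, abs_mul, abs_two]
    linarith [(Complex.abs_re_le_norm (m2 a b c d - n2 a b c d)).trans hD2]
  have c4 : |k4 - l4| ≤ 2 * f ^ 3 := by
    have h1 : k4 - l4 = 2 * (m2 a b c d - n2 a b c d).im := by
      rw [hk4, hl4, Complex.sub_im]; ring
    rw [h1, abs_mul, abs_two]
    linarith [(Complex.abs_im_le_norm (m2 a b c d - n2 a b c d)).trans hD2]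
  have hF : (fun θ => pe (bg θ (x / 2) * a * bg θ (x / 2)) b (bg θ (x / 2) * c * bg θ (x / 2)) d) =
      gt w (2 - 2 * (m0 a b c d).re) k1 k2 k3 k4 := by
    funext θ
    rw [pe_eq, hw, hk1, hk2, hk3, hk4]
  have hQ : (fun θ => q23 θ x (ch a) (ch b) (ch c) (ch d)) = gt w (n0 a b c d) l1 l2 l3 l4 := by
    funext θ
    rw [q23_eq, hw, hl1, hl2, hl3, hl4]
  have hQ1 : deriv (fun θ => q23 θ x (ch a) (ch b) (ch c) (ch d)) =
      gt w 0 (w * l2) (-(w * l1)) (2 * w * l4) (-(2 * w * l3)) := by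
    rw [hQ]
    funext θ
    exact (gt_deriv _ _ _ _ _ _ θ).deriv
  have hQ2 : deriv (deriv fun θ => q23 θ x (ch a) (ch b) (ch c) (ch d)) =
      gt w 0 (w * (-(w * l1))) (-(w * (w * l2))) (2 * w * (-(2 * w * l3)))
        (-(2 * w * (2 * w * l4))) := by
    rw [hQ1]
    funext θ
    exact (gt_deriv _ _ _ _ _ _ θ).deriv
  refine ⟨gt w 0 (w * k2) (-(w * k1)) (2 * w * k4) (-(2 * w * k3)),
    gt w 0 (w * (-(w * k1))) (-(w * (w * k2))) (2 * w * (-(2 * w * k3)))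
        (-(2 * w * (2 * w * k4))), gt_cont _ _ _ _ _ _, gt_cont _ _ _ _ _ _, fun θ => ?_, ?_, ?_⟩
  · refine ⟨?_, gt_deriv _ _ _ _ _ _ θ, ?_, ?_⟩
    · change HasDerivAt (fun θ => pe (bg θ (x / 2) * a * bg θ (x / 2)) b
        (bg θ (x / 2) * c * bg θ (x / 2)) d) _ θ
      rw [hF]
      exact gt_deriv _ _ _ _ _ _ θ
    · refine (gt_bound _ _ _ _ _ _ θ).trans ?_
      rw [abs_zero, abs_neg, abs_neg, abs_mul, abs_mul, abs_mul (2 * w), abs_mul (2 * w),
        abs_mul 2 w, abs_two, abs_of_nonneg hw0]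
      nlinarith
    · refine (gt_bound _ _ _ _ _ _ θ).trans ?_
      have h1 : |w * (-(w * k1))| = w ^ 2 * |k1| := by
        rw [abs_mul, abs_neg, abs_mul, abs_of_nonneg hw0]; ring
      have h2 : |-(w * (w * k2))| = w ^ 2 * |k2| := by
        rw [abs_neg, abs_mul, abs_mul, abs_of_nonneg hw0]; ring
      have h3 : |2 * w * (-(2 * w * k3))| = 4 * w ^ 2 * |k3| := by
        rw [abs_mul, abs_neg, abs_mul (2 * w), abs_mul 2 w, abs_two, abs_of_nonneg hw0]; ring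
      have h4 : |-(2 * w * (2 * w * k4))| = 4 * w ^ 2 * |k4| := by
        rw [abs_neg, abs_mul, abs_mul (2 * w) k4, abs_mul 2 w, abs_two, abs_of_nonneg hw0]; ring
      rw [abs_zero, h1, h2, h3, h4]
      have hw2 : 0 ≤ w ^ 2 := by positivity
      nlinarith
  · change |gt w 0 (w * k2) (-(w * k1)) (2 * w * k4) (-(2 * w * k3)) 0 -
      deriv (fun θ => q23 θ x (ch a) (ch b) (ch c) (ch d)) 0| ≤ 100 * (1 + x) ^ 2 *
        (‖a - 1‖ + ‖b - 1‖ + ‖c - 1‖ + ‖d - 1‖) ^ 3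
    rw [hQ1, gt_zero, gt_zero, ← hf]
    have h1 : 0 + w * k2 + 2 * w * k4 - (0 + w * l2 + 2 * w * l4) =
        w * ((k2 - l2) + 2 * (k4 - l4)) := by ring
    rw [h1, abs_mul, abs_of_nonneg hw0]
    have h2 : |(k2 - l2) + 2 * (k4 - l4)| ≤ 12 * f ^ 3 := by
      refine (abs_add_le _ _).trans ?_
      rw [abs_mul, abs_two]
      linarith
    calc w * |(k2 - l2) + 2 * (k4 - l4)| ≤ (1 + x) ^ 2 * (12 * f ^ 3) := by gcongr
      _ ≤ 100 * (1 + x) ^ 2 * f ^ 3 := by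
        have h3 : 0 ≤ (1 + x) ^ 2 * f ^ 3 := by positivity
        linarith
  · change |gt w 0 (w * (-(w * k1))) (-(w * (w * k2))) (2 * w * (-(2 * w * k3)))
        (-(2 * w * (2 * w * k4))) 0 -
      deriv (deriv fun θ => q23 θ x (ch a) (ch b) (ch c) (ch d)) 0| ≤ 100 * (1 + x) ^ 2 *
        (‖a - 1‖ + ‖b - 1‖ + ‖c - 1‖ + ‖d - 1‖) ^ 3
    rw [hQ2, gt_zero, gt_zero, ← hf]
    have h1 : 0 + w * (-(w * k1)) + 2 * w * (-(2 * w * k3)) -
        (0 + w * (-(w * l1)) + 2 * w * (-(2 * w * l3))) =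
        -(w ^ 2 * ((k1 - l1) + 4 * (k3 - l3))) := by ring
    rw [h1, abs_neg, abs_mul, abs_of_nonneg (by positivity : 0 ≤ w ^ 2)]
    have h2 : |(k1 - l1) + 4 * (k3 - l3)| ≤ 16 * f ^ 3 := by
      refine (abs_add_le _ _).trans ?_
      rw [abs_mul, abs_of_nonneg (by norm_num : (0 : ℝ) ≤ 4)]
      linarith
    calc w ^ 2 * |(k1 - l1) + 4 * (k3 - l3)| ≤ (1 + x) ^ 2 * (16 * f ^ 3) := by gcongr
      _ ≤ 100 * (1 + x) ^ 2 * f ^ 3 := by
        have h3 : 0 ≤ (1 + x) ^ 2 * f ^ 3 := by positivity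
        linarith

end

end Pool.Agent.H308.AF
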